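import Mathlib
import Pool.Agent.H49.Ent

/-!
# The certificate for the exponent `122/67`

Abstract form: a finite law `r` with five rational variables `x p y q z`; a four cycle of lines
`x p`, `y p`, `x q`, `y q` and a second one `z p'`, `y p'`, `z q`, `y q`, where `p' = x + p - z`,
so that both four cycles share the line `y q` and the middle point of `x p` and `z p'`.
-/

namespace Pool.Agent.H38.SE

open Finset Real Pool.Agent.H49.Ent
open scoped BigOperators

set_option maxHeartbeats 8000000 in
theorem cert {W : Type} [Fintype W] {r : W → ℝ} (hr : ∀ w, 0 ≤ r w) (h1 : ∑ w, r w = 1)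
    (x p y q z : W → ℚ)
    (_c0 : ∀ w w', 0 < r w → 0 < r w' → x w - p w = x w' - p w' →
      x w = x w' ∧ p w = p w')
    (c1 : ∀ w w', 0 < r w → 0 < r w' → y w - p w = y w' - p w' →
      y w = y w' ∧ p w = p w')
    (_c2 : ∀ w w', 0 < r w → 0 < r w' → x w - q w = x w' - q w' →
      x w = x w' ∧ q w = q w')
    (c3 : ∀ w w', 0 < r w → 0 < r w' → y w - q w = y w' - q w' →
      y w = y w' ∧ q w = q w')
    (_c4 : ∀ w w', 0 < r w → 0 < r w' → 2 * z w - x w - p w = 2 * z w' - x w' - p w' →
      z w = z w' ∧ x w + p w - z w = x w' + p w' - z w')
    (_c5 : ∀ w w', 0 < r w → 0 < r w' → y w + z w - x w - p w = y w' + z w' - x w' - p w' →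
      y w = y w' ∧ x w + p w - z w = x w' + p w' - z w')
    (c6 : ∀ w w', 0 < r w → 0 < r w' → z w - q w = z w' - q w' →
      z w = z w' ∧ q w = q w')
    (sK1 : ∀ {S : Type} (F : ℚ → ℚ → ℚ → ℚ → S),
      H r (fun w => F (y w) (p w) (x w) (q w)) = H r (fun w => F (x w) (p w) (y w) (q w)))
    (sK2 : ∀ {S : Type} (F : ℚ → ℚ → ℚ → ℚ → S),
      H r (fun w => F (x w) (q w) (y w) (p w)) = H r (fun w => F (x w) (p w) (y w) (q w)))
    (sG : ∀ {S : Type} (F : ℚ → ℚ → ℚ → ℚ → ℚ → S),
      H r (fun w => F (z w) (x w + p w - z w) (y w) (q w) (x w))
        = H r (fun w => F (x w) (p w) (y w) (q w) (z w)))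
    (α a b c : ℝ)
    (L0 : H r (fun w => (p w, y w)) = α) (S1 : H r (fun w => y w) = a) (S2 : H r (fun w => p w) = b) (S3 : H r (fun w => p w + y w) = c)
    (E1 : H r (fun w => (x w, p w, y w)) = 2 * α - b)
    (E2 : H r (fun w => (x w, p w, y w, q w)) = 2 * H r (fun w => (x w, p w, y w)) - H r (fun w => (x w, y w)))
    (E3 : H r (fun w => (x w, p w, y w, q w, z w)) = 2 * H r (fun w => (x w, p w, y w, q w)) - H r (fun w => (x w, p w, y w + q w))) :
    α ≤ 46 / 67 * a + 46 / 67 * b + 30 / 67 * c := by
  have sK12 : ∀ {S : Type} (F : ℚ → ℚ → ℚ → ℚ → S),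
      H r (fun w => F (y w) (q w) (x w) (p w)) = H r (fun w => F (x w) (p w) (y w) (q w)) := by
    intro S F
    rw [← sK1 F]
    exact sK2 (fun x p y q => F y p x q)
  have R1 : H r (fun w => (x w, y w))
      ≤ H r (fun w => x w) + H r (fun w => y w) := by
    refine subadd hr h1 ?_
    · intro w w' hw hw' h
      simp only [Prod.mk.injEq] at h
      obtain ⟨h1, k1⟩ := h
      simp only [Prod.mk.injEq]
      exact ⟨by linarith, by linarith⟩
  have R2 : H r (fun w => (x w, p w + y w))
      ≤ H r (fun w => x w) + H r (fun w => p w + y w) := by
    refine subadd hr h1 ?_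
    · intro w w' hw hw' h
      simp only [Prod.mk.injEq] at h
      obtain ⟨h1, k1⟩ := h
      simp only [Prod.mk.injEq]
      exact ⟨by linarith, by linarith⟩
  have R3 : H r (fun w => (x w, p w, y w)) + H r (fun w => x w + p w + y w)
      ≤ H r (fun w => (x w, p w + y w)) + H r (fun w => (x w + p w, y w)) := by
    refine submod hr ?_ ?_ ?_
    · intro w w' hw hw' h
      simp only [Prod.mk.injEq] at h
      obtain ⟨h1, h2⟩ := h
      show _ = _
      linarith
    · intro w w' hw hw' h
      simp only [Prod.mk.injEq] at h
      obtain ⟨h1, h2⟩ := h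
      show _ = _
      linarith
    · intro w w' hw hw' h
      simp only [Prod.mk.injEq] at h
      obtain ⟨⟨h1, h2⟩, ⟨k1, k2⟩⟩ := h
      simp only [Prod.mk.injEq]
      exact ⟨by linarith, by linarith, by linarith⟩
  have R4 : H r (fun w => (x w + q w, p w))
      ≤ H r (fun w => p w) + H r (fun w => x w + q w) := by
    refine subadd hr h1 ?_
    · intro w w' hw hw' h
      simp only [Prod.mk.injEq] at h
      obtain ⟨h1, k1⟩ := h
      simp only [Prod.mk.injEq]
      exact ⟨by linarith, by linarith⟩
  have R5 : H r (fun w => (p w, y w, q w))
      ≤ H r (fun w => p w) + H r (fun w => p w + y w - q w) := by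
    refine subadd hr h1 ?_
    · intro w w' hw hw' h
      simp only [Prod.mk.injEq] at h
      obtain ⟨h1, k1⟩ := h
      obtain ⟨e1, e2⟩ := c3 w w' hw hw' (by linarith)
      simp only [Prod.mk.injEq]
      exact ⟨by linarith, by linarith, by linarith⟩
  have R6 : H r (fun w => (x w + y w + q w, p w - y w - q w))
      ≤ H r (fun w => x w + p w) + H r (fun w => x w + y w + q w) := by
    refine subadd hr h1 ?_
    · intro w w' hw hw' h
      simp only [Prod.mk.injEq] at h
      obtain ⟨h1, k1⟩ := h
      simp only [Prod.mk.injEq]
      exact ⟨by linarith, by linarith⟩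
  have R7 : H r (fun w => (x w + p w, y w, q w)) + H r (fun w => x w + p w - q w)
      ≤ H r (fun w => (x w + p w, q w)) + H r (fun w => (x w + p w - q w, y w + q w)) := by
    refine submod hr ?_ ?_ ?_
    · intro w w' hw hw' h
      simp only [Prod.mk.injEq] at h
      obtain ⟨h1, h2⟩ := h
      show _ = _
      linarith
    · intro w w' hw hw' h
      simp only [Prod.mk.injEq] at h
      obtain ⟨h1, h2⟩ := h
      show _ = _
      linarith
    · intro w w' hw hw' h
      simp only [Prod.mk.injEq] at h
      obtain ⟨⟨h1, h2⟩, ⟨k1, k2⟩⟩ := h
      simp only [Prod.mk.injEq]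
      exact ⟨by linarith, by linarith, by linarith⟩
  have R8 : H r (fun w => (x w, p w, y w, q w)) + H r (fun w => (p w, q w))
      ≤ H r (fun w => (x w, p w, q w)) + H r (fun w => (p w, y w, q w)) := by
    refine submod hr ?_ ?_ ?_
    · intro w w' hw hw' h
      simp only [Prod.mk.injEq] at h
      obtain ⟨h1, h2, h3⟩ := h
      simp only [Prod.mk.injEq]
      exact ⟨by linarith, by linarith⟩
    · intro w w' hw hw' h
      simp only [Prod.mk.injEq] at h
      obtain ⟨h1, h2, h3⟩ := h
      simp only [Prod.mk.injEq]
      exact ⟨by linarith, by linarith⟩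
    · intro w w' hw hw' h
      simp only [Prod.mk.injEq] at h
      obtain ⟨⟨h1, h2, h3⟩, ⟨k1, k2, k3⟩⟩ := h
      simp only [Prod.mk.injEq]
      exact ⟨by linarith, by linarith, by linarith, by linarith⟩
  have R9 : H r (fun w => (x w, q w + z w))
      ≤ H r (fun w => x w) + H r (fun w => q w + z w) := by
    refine subadd hr h1 ?_
    · intro w w' hw hw' h
      simp only [Prod.mk.injEq] at h
      obtain ⟨h1, k1⟩ := h
      simp only [Prod.mk.injEq]
      exact ⟨by linarith, by linarith⟩
  have R10 : H r (fun w => (x w, q w, z w))
      ≤ H r (fun w => x w) + H r (fun w => x w + q w - z w) := by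
    refine subadd hr h1 ?_
    · intro w w' hw hw' h
      simp only [Prod.mk.injEq] at h
      obtain ⟨h1, k1⟩ := h
      obtain ⟨e1, e2⟩ := c6 w w' hw hw' (by linarith)
      simp only [Prod.mk.injEq]
      exact ⟨by linarith, by linarith, by linarith⟩
  have R11 : H r (fun w => (x w, y w, q w, z w)) + H r (fun w => (x w, q w))
      ≤ H r (fun w => (x w, y w, q w)) + H r (fun w => (x w, q w, z w)) := by
    refine submod hr ?_ ?_ ?_
    · intro w w' hw hw' h
      simp only [Prod.mk.injEq] at h
      obtain ⟨h1, h2, h3⟩ := h
      simp only [Prod.mk.injEq]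
      exact ⟨by linarith, by linarith⟩
    · intro w w' hw hw' h
      simp only [Prod.mk.injEq] at h
      obtain ⟨h1, h2, h3⟩ := h
      simp only [Prod.mk.injEq]
      exact ⟨by linarith, by linarith⟩
    · intro w w' hw hw' h
      simp only [Prod.mk.injEq] at h
      obtain ⟨⟨h1, h2, h3⟩, ⟨k1, k2, k3⟩⟩ := h
      simp only [Prod.mk.injEq]
      exact ⟨by linarith, by linarith, by linarith, by linarith⟩
  have R12 : H r (fun w => (x w - z w, p w, y w, q w)) + H r (fun w => (p w, y w))
      ≤ H r (fun w => (p w, y w, q w)) + H r (fun w => (x w - z w, p w, y w)) := by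
    refine submod hr ?_ ?_ ?_
    · intro w w' hw hw' h
      simp only [Prod.mk.injEq] at h
      obtain ⟨h1, h2, h3⟩ := h
      simp only [Prod.mk.injEq]
      exact ⟨by linarith, by linarith⟩
    · intro w w' hw hw' h
      simp only [Prod.mk.injEq] at h
      obtain ⟨h1, h2, h3⟩ := h
      simp only [Prod.mk.injEq]
      exact ⟨by linarith, by linarith⟩
    · intro w w' hw hw' h
      simp only [Prod.mk.injEq] at h
      obtain ⟨⟨h1, h2, h3⟩, ⟨k1, k2, k3⟩⟩ := h
      simp only [Prod.mk.injEq]
      exact ⟨by linarith, by linarith, by linarith, by linarith⟩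
  have R13 : H r (fun w => (x w, p w, y w, q w, z w)) + H r (fun w => x w - q w - z w)
      ≤ H r (fun w => (x w, q w + z w)) + H r (fun w => (x w - z w, p w, y w, q w)) := by
    refine submod hr ?_ ?_ ?_
    · intro w w' hw hw' h
      simp only [Prod.mk.injEq] at h
      obtain ⟨h1, h2⟩ := h
      show _ = _
      linarith
    · intro w w' hw hw' h
      simp only [Prod.mk.injEq] at h
      obtain ⟨h1, h2, h3, h4⟩ := h
      show _ = _
      linarith
    · intro w w' hw hw' h
      simp only [Prod.mk.injEq] at h
      obtain ⟨⟨h1, h2⟩, ⟨k1, k2, k3, k4⟩⟩ := h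
      simp only [Prod.mk.injEq]
      exact ⟨by linarith, by linarith, by linarith, by linarith, by linarith⟩
  have R14 : H r (fun w => (x w - z w, p w, y w))
      ≤ H r (fun w => x w + y w - z w) + H r (fun w => x w + p w - z w) := by
    refine subadd hr h1 ?_
    · intro w w' hw hw' h
      simp only [Prod.mk.injEq] at h
      obtain ⟨h1, k1⟩ := h
      obtain ⟨e1, e2⟩ := c1 w w' hw hw' (by linarith)
      simp only [Prod.mk.injEq]
      exact ⟨by linarith, by linarith, by linarith⟩
  have R15 : H r (fun w => (x w, p w, y w, q w, z w)) + H r (fun w => x w + y w - z w)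
      ≤ H r (fun w => (x w + y w - z w, p w)) + H r (fun w => (x w, y w, q w, z w)) := by
    refine submod hr ?_ ?_ ?_
    · intro w w' hw hw' h
      simp only [Prod.mk.injEq] at h
      obtain ⟨h1, h2⟩ := h
      show _ = _
      linarith
    · intro w w' hw hw' h
      simp only [Prod.mk.injEq] at h
      obtain ⟨h1, h2, h3, h4⟩ := h
      show _ = _
      linarith
    · intro w w' hw hw' h
      simp only [Prod.mk.injEq] at h
      obtain ⟨⟨h1, h2⟩, ⟨k1, k2, k3, k4⟩⟩ := h
      simp only [Prod.mk.injEq]
      exact ⟨by linarith, by linarith, by linarith, by linarith, by linarith⟩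
  have R16 : H r (fun w => (x w - z w, p w, y w, q w)) + H r (fun w => q w)
      ≤ H r (fun w => (x w + y w - z w, q w)) + H r (fun w => (x w + p w - z w, q w)) := by
    refine submod hr ?_ ?_ ?_
    · intro w w' hw hw' h
      simp only [Prod.mk.injEq] at h
      obtain ⟨h1, h2⟩ := h
      show _ = _
      linarith
    · intro w w' hw hw' h
      simp only [Prod.mk.injEq] at h
      obtain ⟨h1, h2⟩ := h
      show _ = _
      linarith
    · intro w w' hw hw' h
      simp only [Prod.mk.injEq] at h
      obtain ⟨⟨h1, h2⟩, ⟨k1, k2⟩⟩ := h
      obtain ⟨e1, e2⟩ := c1 w w' hw hw' (by linarith)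
      simp only [Prod.mk.injEq]
      exact ⟨by linarith, by linarith, by linarith, by linarith⟩
  have R17 : H r (fun w => (x w + y w - z w, p w))
      ≤ H r (fun w => p w) + H r (fun w => x w + p w + y w - z w) := by
    refine subadd hr h1 ?_
    · intro w w' hw hw' h
      simp only [Prod.mk.injEq] at h
      obtain ⟨h1, k1⟩ := h
      simp only [Prod.mk.injEq]
      exact ⟨by linarith, by linarith⟩
  have R18 : H r (fun w => (x w + y w - z w, p w, q w))
      ≤ H r (fun w => (p w, q w)) + H r (fun w => x w + p w + y w - z w) := by
    refine subadd hr h1 ?_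
    · intro w w' hw hw' h
      simp only [Prod.mk.injEq] at h
      obtain ⟨⟨h1, h2⟩, k1⟩ := h
      simp only [Prod.mk.injEq]
      exact ⟨by linarith, by linarith, by linarith⟩
  have R19 : H r (fun w => (x w - z w, p w, y w, q w)) + H r (fun w => (x w + y w - z w, q w))
      ≤ H r (fun w => (x w + y w - z w, p w, q w)) + H r (fun w => (x w - z w, y w, q w)) := by
    refine submod hr ?_ ?_ ?_
    · intro w w' hw hw' h
      simp only [Prod.mk.injEq] at h
      obtain ⟨h1, h2, h3⟩ := h
      simp only [Prod.mk.injEq]
      exact ⟨by linarith, by linarith⟩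
    · intro w w' hw hw' h
      simp only [Prod.mk.injEq] at h
      obtain ⟨h1, h2, h3⟩ := h
      simp only [Prod.mk.injEq]
      exact ⟨by linarith, by linarith⟩
    · intro w w' hw hw' h
      simp only [Prod.mk.injEq] at h
      obtain ⟨⟨h1, h2, h3⟩, ⟨k1, k2, k3⟩⟩ := h
      simp only [Prod.mk.injEq]
      exact ⟨by linarith, by linarith, by linarith, by linarith⟩
  have R20 : H r (fun w => (x w, p w, y w, q w, z w)) + H r (fun w => (x w - z w, y w, q w))
      ≤ H r (fun w => (x w, y w, q w, z w)) + H r (fun w => (x w - z w, p w, y w, q w)) := by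
    refine submod hr ?_ ?_ ?_
    · intro w w' hw hw' h
      simp only [Prod.mk.injEq] at h
      obtain ⟨h1, h2, h3, h4⟩ := h
      simp only [Prod.mk.injEq]
      exact ⟨by linarith, by linarith, by linarith⟩
    · intro w w' hw hw' h
      simp only [Prod.mk.injEq] at h
      obtain ⟨h1, h2, h3, h4⟩ := h
      simp only [Prod.mk.injEq]
      exact ⟨by linarith, by linarith, by linarith⟩
    · intro w w' hw hw' h
      simp only [Prod.mk.injEq] at h
      obtain ⟨⟨h1, h2, h3, h4⟩, ⟨k1, k2, k3, k4⟩⟩ := h
      simp only [Prod.mk.injEq]
      exact ⟨by linarith, by linarith, by linarith, by linarith, by linarith⟩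
  have t1 : H r (fun w => x w) = H r (fun w => y w) := by
    have u0 := sK1 (fun x p y q => x)
    have v0 : H r (fun w => y w) = H r (fun w => y w) := by
      refine H_congr hr ?_ ?_
      · intro w w' hw hw' h
        have h1 := h
        show _ = _
        linarith
      · intro w w' hw hw' h
        have h1 := h
        show _ = _
        linarith
    exact u0.symm.trans v0
  have t2 : H r (fun w => (x w + p w, y w)) = H r (fun w => (x w, p w + y w)) := by
    have u0 := sK1 (fun x p y q => (x + p, y))
    have v0 : H r (fun w => (y w + p w, x w)) = H r (fun w => (x w, p w + y w)) := by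
      refine H_congr hr ?_ ?_
      · intro w w' hw hw' h
        simp only [Prod.mk.injEq] at h
        obtain ⟨h1, h2⟩ := h
        simp only [Prod.mk.injEq]
        exact ⟨by linarith, by linarith⟩
      · intro w w' hw hw' h
        simp only [Prod.mk.injEq] at h
        obtain ⟨h1, h2⟩ := h
        simp only [Prod.mk.injEq]
        exact ⟨by linarith, by linarith⟩
    exact u0.symm.trans v0
  have t3 : H r (fun w => x w + q w) = H r (fun w => p w + y w) := by
    have u0 := sK12 (fun x p y q => x + q)
    have v0 : H r (fun w => y w + p w) = H r (fun w => p w + y w) := by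
      refine H_congr hr ?_ ?_
      · intro w w' hw hw' h
        have h1 := h
        show _ = _
        linarith
      · intro w w' hw hw' h
        have h1 := h
        show _ = _
        linarith
    exact u0.symm.trans v0
  have t4 : H r (fun w => (x w + q w, p w)) = H r (fun w => (p w, y w + q w)) := by
    have u0 := sK1 (fun x p y q => (x + q, p))
    have v0 : H r (fun w => (y w + q w, p w)) = H r (fun w => (p w, y w + q w)) := by
      refine H_congr hr ?_ ?_
      · intro w w' hw hw' h
        simp only [Prod.mk.injEq] at h
        obtain ⟨h1, h2⟩ := h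
        simp only [Prod.mk.injEq]
        exact ⟨by linarith, by linarith⟩
      · intro w w' hw hw' h
        simp only [Prod.mk.injEq] at h
        obtain ⟨h1, h2⟩ := h
        simp only [Prod.mk.injEq]
        exact ⟨by linarith, by linarith⟩
    exact u0.symm.trans v0
  have t5 : H r (fun w => p w + y w - q w) = H r (fun w => p w - y w - q w) := by
    have u0 := sK2 (fun x p y q => p + y - q)
    have v0 : H r (fun w => q w + y w - p w) = H r (fun w => p w - y w - q w) := by
      refine H_congr hr ?_ ?_
      · intro w w' hw hw' h
        have h1 := h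
        show _ = _
        linarith
      · intro w w' hw hw' h
        have h1 := h
        show _ = _
        linarith
    exact u0.symm.trans v0
  have t6 : H r (fun w => x w + p w) = H r (fun w => p w + y w) := by
    have u0 := sK1 (fun x p y q => x + p)
    have v0 : H r (fun w => y w + p w) = H r (fun w => p w + y w) := by
      refine H_congr hr ?_ ?_
      · intro w w' hw hw' h
        have h1 := h
        show _ = _
        linarith
      · intro w w' hw hw' h
        have h1 := h
        show _ = _
        linarith
    exact u0.symm.trans v0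
  have t7 : H r (fun w => x w + y w + q w) = H r (fun w => x w + p w + y w) := by
    have u0 := sK2 (fun x p y q => x + y + q)
    have v0 : H r (fun w => x w + y w + p w) = H r (fun w => x w + p w + y w) := by
      refine H_congr hr ?_ ?_
      · intro w w' hw hw' h
        have h1 := h
        show _ = _
        linarith
      · intro w w' hw hw' h
        have h1 := h
        show _ = _
        linarith
    exact u0.symm.trans v0
  have t8 : H r (fun w => (x w + y w + q w, p w - y w - q w)) = H r (fun w => (x w + q w, p w + y w - q w)) := by
    have u0 := sK2 (fun x p y q => (x + y + q, p - y - q))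
    have v0 : H r (fun w => (x w + y w + p w, q w - y w - p w)) = H r (fun w => (x w + q w, p w + y w - q w)) := by
      refine H_congr hr ?_ ?_
      · intro w w' hw hw' h
        simp only [Prod.mk.injEq] at h
        obtain ⟨h1, h2⟩ := h
        simp only [Prod.mk.injEq]
        exact ⟨by linarith, by linarith⟩
      · intro w w' hw hw' h
        simp only [Prod.mk.injEq] at h
        obtain ⟨h1, h2⟩ := h
        simp only [Prod.mk.injEq]
        exact ⟨by linarith, by linarith⟩
    exact u0.symm.trans v0
  have t9 : H r (fun w => (x w + p w, q w)) = H r (fun w => (p w, y w + q w)) := by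
    have u0 := sK12 (fun x p y q => (x + p, q))
    have v0 : H r (fun w => (y w + q w, p w)) = H r (fun w => (p w, y w + q w)) := by
      refine H_congr hr ?_ ?_
      · intro w w' hw hw' h
        simp only [Prod.mk.injEq] at h
        obtain ⟨h1, h2⟩ := h
        simp only [Prod.mk.injEq]
        exact ⟨by linarith, by linarith⟩
      · intro w w' hw hw' h
        simp only [Prod.mk.injEq] at h
        obtain ⟨h1, h2⟩ := h
        simp only [Prod.mk.injEq]
        exact ⟨by linarith, by linarith⟩
    exact u0.symm.trans v0
  have t10 : H r (fun w => (x w + p w - q w, y w + q w)) = H r (fun w => (x w + q w, p w + y w - q w)) := by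
    have u0 := sK1 (fun x p y q => (x + p - q, y + q))
    have v0 : H r (fun w => (y w + p w - q w, x w + q w)) = H r (fun w => (x w + q w, p w + y w - q w)) := by
      refine H_congr hr ?_ ?_
      · intro w w' hw hw' h
        simp only [Prod.mk.injEq] at h
        obtain ⟨h1, h2⟩ := h
        simp only [Prod.mk.injEq]
        exact ⟨by linarith, by linarith⟩
      · intro w w' hw hw' h
        simp only [Prod.mk.injEq] at h
        obtain ⟨h1, h2⟩ := h
        simp only [Prod.mk.injEq]
        exact ⟨by linarith, by linarith⟩
    exact u0.symm.trans v0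
  have t11 : H r (fun w => (x w + p w, y w, q w)) = H r (fun w => (x w, p w, y w + q w)) := by
    have u0 := sK12 (fun x p y q => (x + p, y, q))
    have v0 : H r (fun w => (y w + q w, x w, p w)) = H r (fun w => (x w, p w, y w + q w)) := by
      refine H_congr hr ?_ ?_
      · intro w w' hw hw' h
        simp only [Prod.mk.injEq] at h
        obtain ⟨h1, h2, h3⟩ := h
        simp only [Prod.mk.injEq]
        exact ⟨by linarith, by linarith, by linarith⟩
      · intro w w' hw hw' h
        simp only [Prod.mk.injEq] at h
        obtain ⟨h1, h2, h3⟩ := h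
        simp only [Prod.mk.injEq]
        exact ⟨by linarith, by linarith, by linarith⟩
    exact u0.symm.trans v0
  have t12 : H r (fun w => x w + p w - q w) = H r (fun w => p w - y w - q w) := by
    have u0 := sK12 (fun x p y q => x + p - q)
    have v0 : H r (fun w => y w + q w - p w) = H r (fun w => p w - y w - q w) := by
      refine H_congr hr ?_ ?_
      · intro w w' hw hw' h
        have h1 := h
        show _ = _
        linarith
      · intro w w' hw hw' h
        have h1 := h
        show _ = _
        linarith
    exact u0.symm.trans v0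
  have t13 : H r (fun w => (x w, p w, q w)) = H r (fun w => (p w, y w, q w)) := by
    have u0 := sK1 (fun x p y q => (x, p, q))
    have v0 : H r (fun w => (y w, p w, q w)) = H r (fun w => (p w, y w, q w)) := by
      refine H_congr hr ?_ ?_
      · intro w w' hw hw' h
        simp only [Prod.mk.injEq] at h
        obtain ⟨h1, h2, h3⟩ := h
        simp only [Prod.mk.injEq]
        exact ⟨by linarith, by linarith, by linarith⟩
      · intro w w' hw hw' h
        simp only [Prod.mk.injEq] at h
        obtain ⟨h1, h2, h3⟩ := h
        simp only [Prod.mk.injEq]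
        exact ⟨by linarith, by linarith, by linarith⟩
    exact u0.symm.trans v0
  have t14 : H r (fun w => q w + z w) = H r (fun w => p w + y w) := by
    have u0 := sG (fun x p y q z => q + z)
    have v0 : H r (fun w => q w + x w) = H r (fun w => x w + q w) := by
      refine H_congr hr ?_ ?_
      · intro w w' hw hw' h
        have h1 := h
        show _ = _
        linarith
      · intro w w' hw hw' h
        have h1 := h
        show _ = _
        linarith
    have u1 := sK12 (fun x p y q => x + q)
    have v1 : H r (fun w => y w + p w) = H r (fun w => p w + y w) := by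
      refine H_congr hr ?_ ?_
      · intro w w' hw hw' h
        have h1 := h
        show _ = _
        linarith
      · intro w w' hw hw' h
        have h1 := h
        show _ = _
        linarith
    exact u0.symm.trans (v0.trans (u1.symm.trans v1))
  have t15 : H r (fun w => x w + q w - z w) = H r (fun w => x w - q w - z w) := by
    have u0 := sG (fun x p y q z => x + q - z)
    have v0 : H r (fun w => z w + q w - x w) = H r (fun w => x w - q w - z w) := by
      refine H_congr hr ?_ ?_
      · intro w w' hw hw' h
        have h1 := h
        show _ = _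
        linarith
      · intro w w' hw hw' h
        have h1 := h
        show _ = _
        linarith
    exact u0.symm.trans v0
  have t16 : H r (fun w => (x w, y w, q w)) = H r (fun w => (x w, p w, y w)) := by
    have u0 := sK2 (fun x p y q => (x, y, q))
    have v0 : H r (fun w => (x w, y w, p w)) = H r (fun w => (x w, p w, y w)) := by
      refine H_congr hr ?_ ?_
      · intro w w' hw hw' h
        simp only [Prod.mk.injEq] at h
        obtain ⟨h1, h2, h3⟩ := h
        simp only [Prod.mk.injEq]
        exact ⟨by linarith, by linarith, by linarith⟩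
      · intro w w' hw hw' h
        simp only [Prod.mk.injEq] at h
        obtain ⟨h1, h2, h3⟩ := h
        simp only [Prod.mk.injEq]
        exact ⟨by linarith, by linarith, by linarith⟩
    exact u0.symm.trans v0
  have t17 : H r (fun w => (x w, q w)) = H r (fun w => (p w, y w)) := by
    have u0 := sK12 (fun x p y q => (x, q))
    have v0 : H r (fun w => (y w, p w)) = H r (fun w => (p w, y w)) := by
      refine H_congr hr ?_ ?_
      · intro w w' hw hw' h
        simp only [Prod.mk.injEq] at h
        obtain ⟨h1, h2⟩ := h
        simp only [Prod.mk.injEq]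
        exact ⟨by linarith, by linarith⟩
      · intro w w' hw hw' h
        simp only [Prod.mk.injEq] at h
        obtain ⟨h1, h2⟩ := h
        simp only [Prod.mk.injEq]
        exact ⟨by linarith, by linarith⟩
    exact u0.symm.trans v0
  have t18 : H r (fun w => x w + y w - z w) = H r (fun w => x w - y w - z w) := by
    have u0 := sG (fun x p y q z => x + y - z)
    have v0 : H r (fun w => z w + y w - x w) = H r (fun w => x w - y w - z w) := by
      refine H_congr hr ?_ ?_
      · intro w w' hw hw' h
        have h1 := h
        show _ = _
        linarith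
      · intro w w' hw hw' h
        have h1 := h
        show _ = _
        linarith
    exact u0.symm.trans v0
  have t19 : H r (fun w => x w + p w - z w) = H r (fun w => p w) := by
    have u0 := sG (fun x p y q z => x + p - z)
    have v0 : H r (fun w => z w + (x w + p w - z w) - x w) = H r (fun w => p w) := by
      refine H_congr hr ?_ ?_
      · intro w w' hw hw' h
        have h1 := h
        show _ = _
        linarith
      · intro w w' hw hw' h
        have h1 := h
        show _ = _
        linarith
    exact u0.symm.trans v0
  have t20 : H r (fun w => (x w + y w - z w, q w)) = H r (fun w => (x w - y w - z w, q w)) := by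
    have u0 := sG (fun x p y q z => (x + y - z, q))
    have v0 : H r (fun w => (z w + y w - x w, q w)) = H r (fun w => (x w - y w - z w, q w)) := by
      refine H_congr hr ?_ ?_
      · intro w w' hw hw' h
        simp only [Prod.mk.injEq] at h
        obtain ⟨h1, h2⟩ := h
        simp only [Prod.mk.injEq]
        exact ⟨by linarith, by linarith⟩
      · intro w w' hw hw' h
        simp only [Prod.mk.injEq] at h
        obtain ⟨h1, h2⟩ := h
        simp only [Prod.mk.injEq]
        exact ⟨by linarith, by linarith⟩
    exact u0.symm.trans v0
  have t21 : H r (fun w => (x w + p w - z w, q w)) = H r (fun w => (p w, q w)) := by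
    have u0 := sG (fun x p y q z => (x + p - z, q))
    have v0 : H r (fun w => (z w + (x w + p w - z w) - x w, q w)) = H r (fun w => (p w, q w)) := by
      refine H_congr hr ?_ ?_
      · intro w w' hw hw' h
        simp only [Prod.mk.injEq] at h
        obtain ⟨h1, h2⟩ := h
        simp only [Prod.mk.injEq]
        exact ⟨by linarith, by linarith⟩
      · intro w w' hw hw' h
        simp only [Prod.mk.injEq] at h
        obtain ⟨h1, h2⟩ := h
        simp only [Prod.mk.injEq]
        exact ⟨by linarith, by linarith⟩
    exact u0.symm.trans v0
  have t22 : H r (fun w => q w) = H r (fun w => p w) := by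
    have u0 := sK2 (fun x p y q => q)
    have v0 : H r (fun w => p w) = H r (fun w => p w) := by
      refine H_congr hr ?_ ?_
      · intro w w' hw hw' h
        have h1 := h
        show _ = _
        linarith
      · intro w w' hw hw' h
        have h1 := h
        show _ = _
        linarith
    exact u0.symm.trans v0
  have t23 : H r (fun w => x w + p w + y w - z w) = H r (fun w => p w + y w) := by
    have u0 := sG (fun x p y q z => x + p + y - z)
    have v0 : H r (fun w => z w + (x w + p w - z w) + y w - x w) = H r (fun w => p w + y w) := by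
      refine H_congr hr ?_ ?_
      · intro w w' hw hw' h
        have h1 := h
        show _ = _
        linarith
      · intro w w' hw hw' h
        have h1 := h
        show _ = _
        linarith
    exact u0.symm.trans v0
  linarith

end Pool.Agent.H38.SE
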