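import Mathlib
import Pool.Agent.H49.EntAK
import Pool.Agent.H38.SD.Sets

/-!
# From laws to finite sets, for general weights
-/

namespace Pool.Agent.H38.SE

open Finset Real Pool.Agent.H49.Ent Pool.Agent.H38.SD
open scoped BigOperators

/-- the three slope inequality with weights `l, l, m` for all laws in which the direction
determines the line -/
def Ineq (l m : ℝ) : Prop :=
  ∀ (Ω : Type) [Fintype Ω] (p : Ω → ℝ) (f g : Ω → ℚ), (∀ w, 0 ≤ p w) → ∑ w, p w = 1 →
    (∀ w w', 0 < p w → 0 < p w' → g w = g w' → w = w') →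
    H p g ≤ l * H p (fun w => f w - g w) + l * H p (fun w => f w + g w) + m * H p f

/-- weights on the times `-1, 0, 1` -/
noncomputable def wt' (l m : ℝ) (t : ℚ) : ℝ := if t = 0 then m else l

theorem wt'_nonneg {l m : ℝ} (hl : 0 ≤ l) (hm : 0 ≤ m) (t : ℚ) : 0 ≤ wt' l m t := by
  unfold wt'; split_ifs <;> assumption

theorem sum_wt' (l m : ℝ) (F : ℚ → ℝ) :
    ∑ t ∈ ({-1, 0, 1} : Finset ℚ), wt' l m t * F t = l * F (-1) + l * F 1 + m * F 0 := by
  rw [Finset.sum_insert (by norm_num), Finset.sum_pair (by norm_num)]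
  have a : wt' l m (-1) = l := by unfold wt'; rw [if_neg (by norm_num)]
  have b : wt' l m 0 = m := by unfold wt'; rw [if_pos rfl]
  have c : wt' l m 1 = l := by unfold wt'; rw [if_neg (by norm_num)]
  rw [a, b, c]; ring

theorem akw' {l m : ℝ} (hl : 0 ≤ l) (hm : 0 ≤ m) (hI : Ineq l m) :
    AKW ({-1, 0, 1} : Finset ℚ) (wt' l m) := by
  refine AKW_of_injective (fun t _ => wt'_nonneg hl hm t) ?_
  intro Ω _ p f g hp h1 hg
  rw [sum_wt' l m (fun t => H p (fun ω => f ω + t * g ω))]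
  have h := hI Ω p f g hp h1 hg
  have e1 : (fun ω => f ω + (1 : ℚ) * g ω) = fun ω => f ω + g ω := by
    funext ω; ring
  have e2 : (fun ω => f ω + (-1 : ℚ) * g ω) = fun ω => f ω - g ω := by
    funext ω; ring
  have e3 : (fun ω => f ω + (0 : ℚ) * g ω) = f := by
    funext ω; ring
  simp only [e1, e2, e3]
  exact h

/-- **Three slopes.**  An entropy inequality with weights `l, l, m` gives
`|π_{-1}(A)| ≤ (|π_0(A)| |π_∞(A)|)^l |π_1(A)|^m`. -/
theorem slopes_of_ineq {l m : ℝ} (hl : 0 ≤ l) (hm : 0 ≤ m) (hI : Ineq l m)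
    (A : Finset (ℤ × ℤ)) :
    ((A.image (fun p : ℤ × ℤ => p.1 - p.2)).card : ℝ) ≤
      (((A.image (fun p : ℤ × ℤ => p.1)).card : ℝ) *
        ((A.image (fun p : ℤ × ℤ => p.2)).card : ℝ)) ^ l *
      ((A.image (fun p : ℤ × ℤ => p.1 + p.2)).card : ℝ) ^ m := by
  classical
  rcases A.eq_empty_or_nonempty with rfl | hA
  · simp only [Finset.image_empty, Finset.card_empty, Nat.cast_zero]
    positivity
  have hne : Nonempty A := hA.to_subtype
  have h := log_card_le (A := A) (fun t _ => wt'_nonneg hl hm t) (akw' hl hm hI)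
    (fun a => ((a.1.1 : ℚ) + a.1.2) / 2) (fun a => ((a.1.1 : ℚ) - a.1.2) / 2)
  rw [sum_wt' l m (fun t => Real.log ((univ.image (fun a : A =>
    ((a.1.1 : ℚ) + a.1.2) / 2 + t * (((a.1.1 : ℚ) - a.1.2) / 2))).card : ℝ))] at h
  -- cardinalities of images
  have key : ∀ (φ : ℤ × ℤ → ℤ) (ψ : A → ℚ) (m : ℚ → ℚ), Function.Injective m →
      (∀ a : A, ψ a = m ((φ a.1 : ℤ) : ℚ)) →
      (univ.image ψ).card = (A.image φ).card := by
    intro φ ψ m hm hψ
    have : univ.image ψ = (A.image φ).image (fun z : ℤ => m (z : ℚ)) := by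
      ext q
      simp only [Finset.mem_image, Finset.mem_univ, true_and]
      constructor
      · rintro ⟨a, rfl⟩
        exact ⟨φ a.1, ⟨a.1, a.2, rfl⟩, (hψ a).symm⟩
      · rintro ⟨z, ⟨b, hb, rfl⟩, rfl⟩
        exact ⟨⟨b, hb⟩, hψ ⟨b, hb⟩⟩
    have hinj : Function.Injective (fun z : ℤ => m (z : ℚ)) := by
      intro a b hab
      exact_mod_cast hm hab
    rw [this, Finset.card_image_of_injective _ hinj]
  have hm2 : Function.Injective (fun x : ℚ => x / 2) := fun a b hab => by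
    simp only [] at hab
    linarith
  have k0 : (univ.image (fun a : A => ((a.1.1 : ℚ) - a.1.2) / 2)).card
      = (A.image (fun p : ℤ × ℤ => p.1 - p.2)).card :=
    key (fun p => p.1 - p.2) _ (fun x => x / 2) hm2 (fun a => by push_cast; ring)
  have k1 : (univ.image (fun a : A =>
      ((a.1.1 : ℚ) + a.1.2) / 2 + 1 * (((a.1.1 : ℚ) - a.1.2) / 2))).card
      = (A.image (fun p : ℤ × ℤ => p.1)).card :=
    key (fun p => p.1) _ (fun x => x) (fun _ _ h => h) (fun a => by ring)
  have k2 : (univ.image (fun a : A =>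
      ((a.1.1 : ℚ) + a.1.2) / 2 + (-1) * (((a.1.1 : ℚ) - a.1.2) / 2))).card
      = (A.image (fun p : ℤ × ℤ => p.2)).card :=
    key (fun p => p.2) _ (fun x => x) (fun _ _ h => h) (fun a => by ring)
  have k3 : (univ.image (fun a : A =>
      ((a.1.1 : ℚ) + a.1.2) / 2 + 0 * (((a.1.1 : ℚ) - a.1.2) / 2))).card
      = (A.image (fun p : ℤ × ℤ => p.1 + p.2)).card :=
    key (fun p => p.1 + p.2) _ (fun x => x / 2) hm2 (fun a => by push_cast; ring)
  rw [k0, k1, k2, k3] at h
  have pos : ∀ φ : ℤ × ℤ → ℤ, (0 : ℝ) < ((A.image φ).card : ℝ) := by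
    intro φ
    exact_mod_cast Finset.card_pos.mpr (hA.image φ)
  have p0 := pos (fun p => p.1 - p.2)
  have p1 := pos (fun p => p.1)
  have p2 := pos (fun p => p.2)
  have p3 := pos (fun p => p.1 + p.2)
  rw [← Real.log_le_log_iff p0 (by positivity), Real.log_mul (by positivity) (by positivity),
    Real.log_rpow (by positivity), Real.log_rpow p3, Real.log_mul p1.ne' p2.ne']
  linarith

/-- The same with the largest of the three projections: exponent `2 l + m`. -/
theorem slopes_max_of_ineq {l m : ℝ} (hl : 0 < l) (hm : 0 ≤ m) (hI : Ineq l m)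
    (A : Finset (ℤ × ℤ)) :
    ((A.image (fun p : ℤ × ℤ => p.1 - p.2)).card : ℝ) ≤
      (max (max ((A.image (fun p : ℤ × ℤ => p.1)).card : ℝ)
        ((A.image (fun p : ℤ × ℤ => p.2)).card : ℝ))
        ((A.image (fun p : ℤ × ℤ => p.1 + p.2)).card : ℝ)) ^ (2 * l + m) := by
  refine (slopes_of_ineq hl.le hm hI A).trans ?_
  set N := max (max ((A.image (fun p : ℤ × ℤ => p.1)).card : ℝ)
        ((A.image (fun p : ℤ × ℤ => p.2)).card : ℝ))
        ((A.image (fun p : ℤ × ℤ => p.1 + p.2)).card : ℝ) with hN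
  have h1 : ((A.image (fun p : ℤ × ℤ => p.1)).card : ℝ) ≤ N :=
    (le_max_left _ _).trans (le_max_left _ _)
  have h2 : ((A.image (fun p : ℤ × ℤ => p.2)).card : ℝ) ≤ N :=
    (le_max_right _ _).trans (le_max_left _ _)
  have h3 : ((A.image (fun p : ℤ × ℤ => p.1 + p.2)).card : ℝ) ≤ N := le_max_right _ _
  have h0 : 0 ≤ N := (Nat.cast_nonneg _).trans h1
  rcases eq_or_lt_of_le h0 with hz | hpos
  · have e1 : ((A.image (fun p : ℤ × ℤ => p.1)).card : ℝ) = 0 :=
      le_antisymm (hz ▸ h1) (Nat.cast_nonneg _)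
    rw [e1, zero_mul, Real.zero_rpow hl.ne', zero_mul]
    exact Real.rpow_nonneg h0 _
  · calc (((A.image (fun p : ℤ × ℤ => p.1)).card : ℝ) *
          ((A.image (fun p : ℤ × ℤ => p.2)).card : ℝ)) ^ l *
          ((A.image (fun p : ℤ × ℤ => p.1 + p.2)).card : ℝ) ^ m
        ≤ (N * N) ^ l * N ^ m := by
          refine mul_le_mul (Real.rpow_le_rpow (by positivity)
            (mul_le_mul h1 h2 (Nat.cast_nonneg _) h0) hl.le)
            (Real.rpow_le_rpow (Nat.cast_nonneg _) h3 hm)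
            (Real.rpow_nonneg (Nat.cast_nonneg _) _)
            (Real.rpow_nonneg (mul_nonneg h0 h0) _)
      _ = N ^ (2 * l + m) := by
          rw [← pow_two, ← Real.rpow_natCast N 2, ← Real.rpow_mul hpos.le,
            ← Real.rpow_add hpos]
          norm_num

end Pool.Agent.H38.SE
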