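import Mathlib
import Pool.Agent.H49.EntAK
import Pool.Agent.H38.SD.Base
import Pool.Agent.H38.SE.Cert

/-!
# The three slope inequality with total exponent `122/67`

Lines are points of `Ω`; the line `ω` is at `f ω + t g ω` at time `t`.  We glue two lines over
their common position at time one (`q1`), two such pairs over their positions at time minus one
(`rk`: a four cycle of lines) and two four cycles over one line and the middle position of the
opposite line (`sg`).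
-/

namespace Pool.Agent.H38.SE

open Finset Real Pool.Agent.H49.Ent Pool.Agent.H38.SD
open scoped BigOperators

section gen

variable {A : Type*} [Fintype A] {T : Type*}

theorem glue_swap (p : A → ℝ) (Z : A → T) (w : A × A) :
    glue p p Z Z (w.2, w.1) = glue p p Z Z w := by
  unfold glue
  simp only []
  by_cases h : Z w.1 = Z w.2
  · rw [if_pos h, if_pos h.symm, h]; ring
  · rw [if_neg h, if_neg (fun h' => h h'.symm)]

theorem H_glue_swap (p : A → ℝ) (Z : A → T) {S : Type*} (X : A × A → S) :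
    H (glue p p Z Z) (fun w => X (w.2, w.1)) = H (glue p p Z Z) X :=
  H_equiv (p := glue p p Z Z) (Equiv.prodComm A A) (fun w => glue_swap p Z w) X

/-- symmetry of a glued law coming from a symmetry of the factors -/
theorem glue_map (p : A → ℝ) (Z : A → T) (e : A ≃ A) (he : ∀ w, p (e w) = p w)
    (φ : T → T) (hφ : Function.Injective φ) (hZ : ∀ w, Z (e w) = φ (Z w)) (w : A × A) :
    glue p p Z Z (e w.1, e w.2) = glue p p Z Z w := by
  classical
  have hlaw : law p Z (φ (Z w.1)) = law p Z (Z w.1) := by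
    unfold law
    rw [← Equiv.sum_comp e (fun v => if Z v = φ (Z w.1) then p v else 0)]
    refine Finset.sum_congr rfl (fun v _ => ?_)
    simp only [hZ, he]
    by_cases h : Z v = Z w.1
    · rw [if_pos h, if_pos (by rw [h])]
    · rw [if_neg h, if_neg (fun h' => h (hφ h'))]
  unfold glue
  simp only [he, hZ, hlaw]
  by_cases h : Z w.1 = Z w.2
  · rw [if_pos h, if_pos (by rw [h])]
  · rw [if_neg h, if_neg (fun h' => h (hφ h'))]

theorem H_glue_map (p : A → ℝ) (Z : A → T) (e : A ≃ A) (he : ∀ w, p (e w) = p w)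
    (φ : T → T) (hφ : Function.Injective φ) (hZ : ∀ w, Z (e w) = φ (Z w)) {S : Type*}
    (X : A × A → S) :
    H (glue p p Z Z) (fun w => X (e w.1, e w.2)) = H (glue p p Z Z) X :=
  H_equiv (p := glue p p Z Z) (Equiv.prodCongr e e)
    (fun w => glue_map p Z e he φ hφ hZ w) X

end gen

variable {Ω : Type} [Fintype Ω]

/-- two lines crossing at time one -/
noncomputable def q1 (p : Ω → ℝ) (f g : Ω → ℚ) : Ω × Ω → ℝ :=
  glue p p (fun w => f w + g w) (fun w => f w + g w)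

/-- the positions of both lines at time minus one -/
def M (f g : Ω → ℚ) (a : Ω × Ω) : ℚ × ℚ := (f a.1 - g a.1, f a.2 - g a.2)

/-- a four cycle of lines -/
noncomputable def rk (p : Ω → ℝ) (f g : Ω → ℚ) : (Ω × Ω) × (Ω × Ω) → ℝ :=
  glue (q1 p f g) (q1 p f g) (M f g) (M f g)

/-- the middle position of the first line and the whole last line -/
def Fz (f g : Ω → ℚ) (w : (Ω × Ω) × (Ω × Ω)) : ℚ × ℚ × ℚ :=
  (f w.1.1, f w.2.2 - g w.2.2, f w.2.2 + g w.2.2)

/-- two four cycles over a line and the middle position of the opposite line -/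
noncomputable def sg (p : Ω → ℝ) (f g : Ω → ℚ) :
    ((Ω × Ω) × (Ω × Ω)) × ((Ω × Ω) × (Ω × Ω)) → ℝ :=
  glue (rk p f g) (rk p f g) (Fz f g) (Fz f g)

section

variable {p : Ω → ℝ} {f g : Ω → ℚ}

theorem q1_nonneg (hp : ∀ w, 0 ≤ p w) (w : Ω × Ω) : 0 ≤ q1 p f g w := glue_nonneg hp hp w

theorem q1_pos (hp : ∀ w, 0 ≤ p w) {w : Ω × Ω} (h : 0 < q1 p f g w) :
    0 < p w.1 ∧ 0 < p w.2 ∧ f w.1 + g w.1 = f w.2 + g w.2 := (glue_pos_iff hp hp w).mp h

theorem rk_nonneg (hp : ∀ w, 0 ≤ p w) (w : (Ω × Ω) × (Ω × Ω)) : 0 ≤ rk p f g w :=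
  glue_nonneg (q1_nonneg hp) (q1_nonneg hp) w

theorem rk_pos (hp : ∀ w, 0 ≤ p w) {w : (Ω × Ω) × (Ω × Ω)} (h : 0 < rk p f g w) :
    (0 < p w.1.1 ∧ 0 < p w.1.2 ∧ 0 < p w.2.1 ∧ 0 < p w.2.2) ∧
      f w.1.1 + g w.1.1 = f w.1.2 + g w.1.2 ∧ f w.2.1 + g w.2.1 = f w.2.2 + g w.2.2 ∧
      f w.1.1 - g w.1.1 = f w.2.1 - g w.2.1 ∧ f w.1.2 - g w.1.2 = f w.2.2 - g w.2.2 := by
  obtain ⟨h1, h2, h3⟩ := (glue_pos_iff (q1_nonneg hp) (q1_nonneg hp) w).mp h
  obtain ⟨a1, a2, a3⟩ := q1_pos hp h1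
  obtain ⟨b1, b2, b3⟩ := q1_pos hp h2
  simp only [M, Prod.mk.injEq] at h3
  exact ⟨⟨a1, a2, b1, b2⟩, a3, b3, h3.1, h3.2⟩

theorem sg_nonneg (hp : ∀ w, 0 ≤ p w) (w : ((Ω × Ω) × (Ω × Ω)) × ((Ω × Ω) × (Ω × Ω))) :
    0 ≤ sg p f g w :=
  glue_nonneg (rk_nonneg hp) (rk_nonneg hp) w

theorem sg_pos (hp : ∀ w, 0 ≤ p w) {w : ((Ω × Ω) × (Ω × Ω)) × ((Ω × Ω) × (Ω × Ω))}
    (h : 0 < sg p f g w) :
    0 < rk p f g w.1 ∧ 0 < rk p f g w.2 ∧ Fz f g w.1 = Fz f g w.2 :=
  (glue_pos_iff (rk_nonneg hp) (rk_nonneg hp) w).mp h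

theorem main_inj (hp : ∀ w, 0 ≤ p w) (h1 : ∑ w, p w = 1)
    (hg : ∀ w w', 0 < p w → 0 < p w' → g w = g w' → w = w') :
    H p g ≤ 46 / 67 * H p (fun w => f w - g w) + 46 / 67 * H p (fun w => f w + g w)
      + 30 / 67 * H p f := by
  classical
  have hq : ∀ w, 0 ≤ q1 p f g w := q1_nonneg hp
  have hk : ∀ w, 0 ≤ rk p f g w := rk_nonneg hp
  have hs : ∀ w, 0 ≤ sg p f g w := sg_nonneg hp
  have hsq : ∑ w, q1 p f g w = 1 := (sum_glue hp (fun _ => rfl)).trans h1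
  have hsk : ∑ w, rk p f g w = 1 := (sum_glue hq (fun _ => rfl)).trans hsq
  have hss : ∑ w, sg p f g w = 1 := (sum_glue hk (fun _ => rfl)).trans hsk
  -- marginals
  have ms : ∀ {S : Type} (X : (Ω × Ω) × (Ω × Ω) → S),
      H (sg p f g) (fun w => X w.1) = H (rk p f g) X := fun X => H_glue_fst hk (fun _ => rfl) X
  have mk : ∀ {S : Type} (X : Ω × Ω → S),
      H (rk p f g) (fun w => X w.1) = H (q1 p f g) X := fun X => H_glue_fst hq (fun _ => rfl) X
  have m1 : ∀ {S : Type} (X : Ω → S),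
      H (q1 p f g) (fun w => X w.1) = H p X := fun X => H_glue_fst hp (fun _ => rfl) X
  have m2 : ∀ {S : Type} (X : Ω → S),
      H (q1 p f g) (fun w => X w.2) = H p X := fun X => H_glue_snd hp (fun _ => rfl) X
  -- the full line has the entropy of its direction
  have hid : H p (fun w => w) = H p g := by
    refine H_congr hp ?_ ?_
    · intro w w' hw hw' e; exact hg w w' hw hw' e
    · intro w w' _ _ e; exact congrArg g e
  -- symmetries of the four cycle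
  have k2 : ∀ {S : Type} (X : (Ω × Ω) × (Ω × Ω) → S),
      H (rk p f g) (fun w => X (w.2, w.1)) = H (rk p f g) X :=
    fun X => H_glue_swap (q1 p f g) (M f g) X
  have k1 : ∀ {S : Type} (X : (Ω × Ω) × (Ω × Ω) → S),
      H (rk p f g) (fun w => X ((w.1.2, w.1.1), (w.2.2, w.2.1))) = H (rk p f g) X := by
    intro S X
    exact H_glue_map (q1 p f g) (M f g) (Equiv.prodComm Ω Ω)
      (fun w => glue_swap p (fun w => f w + g w) w) (fun a => (a.2, a.1))
      (fun a b h => by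
        simp only [Prod.mk.injEq] at h
        exact Prod.ext h.2 h.1) (fun w => rfl) X
  -- totals
  have T1 : H (q1 p f g) (fun w => w) = 2 * H p g - H p (fun w => f w + g w) := by
    have h := H_glue_pair (p₁ := p) (p₂ := p) (Z₁ := fun w => f w + g w)
      (Z₂ := fun w => f w + g w) hp hp (fun _ => rfl)
      (X := fun w => w) (Y := fun w => w) (fun w w' _ _ e => by
        have e' : w = w' := e
        rw [e'])
      (fun w w' _ _ e => by
        have e' : w = w' := e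
        rw [e'])
    rw [hid] at h
    have h' : H (q1 p f g) (fun w => w) = H (q1 p f g) (fun w => (w.1, w.2)) := rfl
    rw [h']
    unfold q1
    rw [h]
    ring
  have T2 : H (rk p f g) (fun w => w) = 2 * H (q1 p f g) (fun w => w)
      - H (q1 p f g) (M f g) := by
    have h := H_glue_pair (p₁ := q1 p f g) (p₂ := q1 p f g) (Z₁ := M f g)
      (Z₂ := M f g) hq hq (fun _ => rfl)
      (X := fun w => w) (Y := fun w => w) (fun w w' _ _ e => by
        have e' : w = w' := e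
        rw [e'])
      (fun w w' _ _ e => by
        have e' : w = w' := e
        rw [e'])
    have h' : H (rk p f g) (fun w => w) = H (rk p f g) (fun w => (w.1, w.2)) := rfl
    rw [h']
    unfold rk
    rw [h]
    ring
  have T3 : H (sg p f g) (fun w => w) = 2 * H (rk p f g) (fun w => w)
      - H (rk p f g) (Fz f g) := by
    have h := H_glue_pair (p₁ := rk p f g) (p₂ := rk p f g) (Z₁ := Fz f g)
      (Z₂ := Fz f g) hk hk (fun _ => rfl)
      (X := fun w => w) (Y := fun w => w) (fun w w' _ _ e => by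
        have e' : w = w' := e
        rw [e'])
      (fun w w' _ _ e => by
        have e' : w = w' := e
        rw [e'])
    have h' : H (sg p f g) (fun w => w) = H (sg p f g) (fun w => (w.1, w.2)) := rfl
    rw [h']
    unfold sg
    rw [h]
    ring
  -- what is known on the support
  have sup : ∀ w, 0 < sg p f g w →
      (0 < p w.1.1.1 ∧ 0 < p w.1.1.2 ∧ 0 < p w.1.2.1 ∧ 0 < p w.1.2.2 ∧
        0 < p w.2.1.1 ∧ 0 < p w.2.1.2 ∧ 0 < p w.2.2.1 ∧ 0 < p w.2.2.2) ∧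
      (f w.1.1.1 + g w.1.1.1 = f w.1.1.2 + g w.1.1.2 ∧
        f w.1.2.1 + g w.1.2.1 = f w.1.2.2 + g w.1.2.2 ∧
        f w.1.1.1 - g w.1.1.1 = f w.1.2.1 - g w.1.2.1 ∧
        f w.1.1.2 - g w.1.1.2 = f w.1.2.2 - g w.1.2.2) ∧
      (f w.2.1.1 + g w.2.1.1 = f w.2.1.2 + g w.2.1.2 ∧
        f w.2.2.1 + g w.2.2.1 = f w.2.2.2 + g w.2.2.2 ∧
        f w.2.1.1 - g w.2.1.1 = f w.2.2.1 - g w.2.2.1 ∧
        f w.2.1.2 - g w.2.1.2 = f w.2.2.2 - g w.2.2.2) ∧
      (f w.1.1.1 = f w.2.1.1 ∧ f w.1.2.2 - g w.1.2.2 = f w.2.2.2 - g w.2.2.2 ∧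
        f w.1.2.2 + g w.1.2.2 = f w.2.2.2 + g w.2.2.2) := by
    intro w hw
    obtain ⟨a, b, c⟩ := sg_pos hp hw
    obtain ⟨⟨a1, a2, a3, a4⟩, a5, a6, a7, a8⟩ := rk_pos hp a
    obtain ⟨⟨b1, b2, b3, b4⟩, b5, b6, b7, b8⟩ := rk_pos hp b
    simp only [Fz, Prod.mk.injEq] at c
    exact ⟨⟨a1, a2, a3, a4, b1, b2, b3, b4⟩, ⟨a5, a6, a7, a8⟩, ⟨b5, b6, b7, b8⟩, c⟩
  -- functions of the first four cycle
  have kfun : ∀ {S : Type} (F : ℚ → ℚ → ℚ → ℚ → S),
      H (sg p f g) (fun w => F (f w.1.1.1 - g w.1.1.1) (f w.1.1.1 + g w.1.1.1)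
        (f w.1.1.2 - g w.1.1.2) (f w.1.2.1 + g w.1.2.1))
      = H (rk p f g) (fun w => F (f w.1.1 - g w.1.1) (f w.1.1 + g w.1.1)
        (f w.1.2 - g w.1.2) (f w.2.1 + g w.2.1)) := fun F =>
    ms (fun w => F (f w.1.1 - g w.1.1) (f w.1.1 + g w.1.1)
        (f w.1.2 - g w.1.2) (f w.2.1 + g w.2.1))
  refine cert (r := sg p f g) hs hss
    (fun w => f w.1.1.1 - g w.1.1.1) (fun w => f w.1.1.1 + g w.1.1.1)
    (fun w => f w.1.1.2 - g w.1.1.2) (fun w => f w.1.2.1 + g w.1.2.1)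
    (fun w => f w.2.1.1 - g w.2.1.1) ?_ ?_ ?_ ?_ ?_ ?_ ?_ ?_ ?_ ?_
    (H p g) (H p (fun w => f w - g w)) (H p (fun w => f w + g w)) (H p f)
    ?_ ?_ ?_ ?_ ?_ ?_ ?_
  · intro w w' hw hw' e
    obtain ⟨⟨a1, -, -, -, -, -, -, -⟩, -, -, -⟩ := sup w hw
    obtain ⟨⟨b1, -, -, -, -, -, -, -⟩, -, -, -⟩ := sup w' hw'
    have h := hg _ _ a1 b1 (by linarith)
    simp only [h, and_self]
  · intro w w' hw hw' e
    obtain ⟨⟨-, a2, -, -, -, -, -, -⟩, ⟨c1, c2, c3, c4⟩, -, -⟩ := sup w hw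
    obtain ⟨⟨-, b2, -, -, -, -, -, -⟩, ⟨d1, d2, d3, d4⟩, -, -⟩ := sup w' hw'
    have h := hg _ _ a2 b2 (by linarith)
    simp only [c1, d1, h, and_self]
  · intro w w' hw hw' e
    obtain ⟨⟨-, -, a3, -, -, -, -, -⟩, ⟨c1, c2, c3, c4⟩, -, -⟩ := sup w hw
    obtain ⟨⟨-, -, b3, -, -, -, -, -⟩, ⟨d1, d2, d3, d4⟩, -, -⟩ := sup w' hw'
    have h := hg _ _ a3 b3 (by linarith)
    simp only [c3, d3, h, and_self]
  · intro w w' hw hw' e
    obtain ⟨⟨-, -, -, a4, -, -, -, -⟩, ⟨c1, c2, c3, c4⟩, -, -⟩ := sup w hw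
    obtain ⟨⟨-, -, -, b4, -, -, -, -⟩, ⟨d1, d2, d3, d4⟩, -, -⟩ := sup w' hw'
    have h := hg _ _ a4 b4 (by linarith)
    simp only [c4, c2, d4, d2, h, and_self]
  · intro w w' hw hw' e
    obtain ⟨⟨-, -, -, -, a5, -, -, -⟩, -, -, ⟨e1, e2, e3⟩⟩ := sup w hw
    obtain ⟨⟨-, -, -, -, b5, -, -, -⟩, -, -, ⟨k1, k2, k3⟩⟩ := sup w' hw'
    have h := hg _ _ a5 b5 (by linarith)
    refine ⟨by simp only [h], ?_⟩
    have h2 : f w.2.1.1 = f w'.2.1.1 := by rw [h]
    have h3 : g w.2.1.1 = g w'.2.1.1 := by rw [h]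
    linarith
  · intro w w' hw hw' e
    obtain ⟨⟨-, -, -, -, -, a6, -, -⟩, ⟨-, -, -, c4⟩, ⟨u1, u2, u3, u4⟩, ⟨e1, e2, e3⟩⟩ := sup w hw
    obtain ⟨⟨-, -, -, -, -, b6, -, -⟩, ⟨-, -, -, d4⟩, ⟨v1, v2, v3, v4⟩, ⟨k1, k2, k3⟩⟩ :=
      sup w' hw'
    have h := hg _ _ a6 b6 (by linarith)
    have h2 : f w.2.1.2 = f w'.2.1.2 := by rw [h]
    have h3 : g w.2.1.2 = g w'.2.1.2 := by rw [h]
    refine ⟨?_, ?_⟩
    · linarith
    · linarith
  · intro w w' hw hw' e
    obtain ⟨⟨-, -, -, -, -, -, a7, -⟩, ⟨c1, c2, c3, c4⟩, ⟨u1, u2, u3, u4⟩, ⟨e1, e2, e3⟩⟩ :=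
      sup w hw
    obtain ⟨⟨-, -, -, -, -, -, b7, -⟩, ⟨d1, d2, d3, d4⟩, ⟨v1, v2, v3, v4⟩, ⟨k1, k2, k3⟩⟩ :=
      sup w' hw'
    have h := hg _ _ a7 b7 (by linarith)
    have h2 : f w.2.2.1 = f w'.2.2.1 := by rw [h]
    have h3 : g w.2.2.1 = g w'.2.2.1 := by rw [h]
    refine ⟨?_, ?_⟩
    · linarith
    · linarith
  · intro S F
    have a := kfun F
    have b := kfun (fun x p y q => F y p x q)
    refine b.trans (Eq.trans ?_ a.symm)
    rw [← k1 (fun w => F (f w.1.1 - g w.1.1) (f w.1.1 + g w.1.1)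
        (f w.1.2 - g w.1.2) (f w.2.1 + g w.2.1))]
    refine H_eq_on hk (fun w hw => ?_)
    obtain ⟨-, a5, a6, a7, a8⟩ := rk_pos hp hw
    simp only [a5, a6]
  · intro S F
    have a := kfun F
    have b := kfun (fun x p y q => F x q y p)
    refine b.trans (Eq.trans ?_ a.symm)
    rw [← k2 (fun w => F (f w.1.1 - g w.1.1) (f w.1.1 + g w.1.1)
        (f w.1.2 - g w.1.2) (f w.2.1 + g w.2.1))]
    refine H_eq_on hk (fun w hw => ?_)
    obtain ⟨-, a5, a6, a7, a8⟩ := rk_pos hp hw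
    simp only [a7, a8]
  · intro S F
    have h := H_glue_swap (rk p f g) (Fz f g)
      (fun w : ((Ω × Ω) × (Ω × Ω)) × ((Ω × Ω) × (Ω × Ω)) =>
        F (f w.1.1.1 - g w.1.1.1) (f w.1.1.1 + g w.1.1.1)
          (f w.1.1.2 - g w.1.1.2) (f w.1.2.1 + g w.1.2.1) (f w.2.1.1 - g w.2.1.1))
    refine Eq.trans ?_ h
    refine H_eq_on hs (fun w hw => ?_)
    obtain ⟨-, ⟨c1, c2, c3, c4⟩, ⟨u1, u2, u3, u4⟩, ⟨e1, e2, e3⟩⟩ := sup w hw
    have z1 : f w.1.1.1 - g w.1.1.1 + (f w.1.1.1 + g w.1.1.1) - (f w.2.1.1 - g w.2.1.1)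
        = f w.2.1.1 + g w.2.1.1 := by linarith
    have z2 : f w.1.1.2 - g w.1.1.2 = f w.2.1.2 - g w.2.1.2 := by linarith
    have z3 : f w.1.2.1 + g w.1.2.1 = f w.2.2.1 + g w.2.2.1 := by linarith
    simp only [z1, z2, z3]
  · -- a line
    have h := kfun (fun x p y q => (p, y))
    refine h.trans ?_
    rw [mk (fun a => (f a.1 + g a.1, f a.2 - g a.2))]
    have h2 : H (q1 p f g) (fun a => (f a.1 + g a.1, f a.2 - g a.2))
        = H (q1 p f g) (fun a => (f a.2 + g a.2, f a.2 - g a.2)) := by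
      refine H_eq_on hq (fun a ha => ?_)
      rw [(q1_pos hp ha).2.2]
    rw [h2, m2 (fun w => (f w + g w, f w - g w)), ← hid]
    refine H_congr hp ?_ ?_
    · intro w w' _ _ e
      simp only [e]
    · intro w w' hw hw' e
      simp only [Prod.mk.injEq] at e
      exact hg _ _ hw hw' (by linarith [e.1, e.2])
  · have h := kfun (fun x p y q => y)
    refine h.trans ?_
    rw [mk (fun a => f a.2 - g a.2), m2 (fun w => f w - g w)]
  · have h := kfun (fun x p y q => p)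
    refine h.trans ?_
    rw [mk (fun a => f a.1 + g a.1), m1 (fun w => f w + g w)]
  · have h := kfun (fun x p y q => p + y)
    refine h.trans ?_
    rw [mk (fun a => f a.1 + g a.1 + (f a.2 - g a.2))]
    have h2 : H (q1 p f g) (fun a => f a.1 + g a.1 + (f a.2 - g a.2))
        = H (q1 p f g) (fun a => 2 * f a.2) := by
      refine H_eq_on hq (fun a ha => ?_)
      rw [(q1_pos hp ha).2.2]
      ring
    rw [h2, m2 (fun w => 2 * f w)]
    refine H_congr hp ?_ ?_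
    · intro w w' _ _ e
      simp only [e]
    · intro w w' _ _ e
      simp only [] at e
      linarith
  · have h := kfun (fun x p y q => (x, p, y))
    refine h.trans ?_
    rw [mk (fun a => (f a.1 - g a.1, f a.1 + g a.1, f a.2 - g a.2)), ← T1]
    refine H_congr hq ?_ ?_
    · intro w w' _ _ e
      simp only [e]
    · intro w w' hw hw' e
      obtain ⟨a1, a2, a3⟩ := q1_pos hp hw
      obtain ⟨b1, b2, b3⟩ := q1_pos hp hw'
      simp only [Prod.mk.injEq] at e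
      obtain ⟨e1, e2, e3⟩ := e
      exact Prod.ext (hg _ _ a1 b1 (by linarith)) (hg _ _ a2 b2 (by linarith))
  · have h := kfun (fun x p y q => (x, p, y, q))
    have h2 := kfun (fun x p y q => (x, p, y))
    have h3 := kfun (fun x p y q => (x, y))
    rw [h, h2, h3, mk (fun a => (f a.1 - g a.1, f a.1 + g a.1, f a.2 - g a.2)),
      mk (fun a => (f a.1 - g a.1, f a.2 - g a.2))]
    have i1 : H (q1 p f g) (fun a => (f a.1 - g a.1, f a.1 + g a.1, f a.2 - g a.2))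
        = H (q1 p f g) (fun w => w) := by
      refine H_congr hq ?_ ?_
      · intro w w' _ _ e
        simp only [e]
      · intro w w' hw hw' e
        obtain ⟨a1, a2, a3⟩ := q1_pos hp hw
        obtain ⟨b1, b2, b3⟩ := q1_pos hp hw'
        simp only [Prod.mk.injEq] at e
        obtain ⟨e1, e2, e3⟩ := e
        exact Prod.ext (hg _ _ a1 b1 (by linarith)) (hg _ _ a2 b2 (by linarith))
    have i2 : H (rk p f g) (fun w => (f w.1.1 - g w.1.1, f w.1.1 + g w.1.1,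
        f w.1.2 - g w.1.2, f w.2.1 + g w.2.1)) = H (rk p f g) (fun w => w) := by
      refine H_congr hk ?_ ?_
      · intro w w' _ _ e
        simp only [e]
      · intro w w' hw hw' e
        obtain ⟨⟨a1, a2, a3, a4⟩, a5, a6, a7, a8⟩ := rk_pos hp hw
        obtain ⟨⟨b1, b2, b3, b4⟩, b5, b6, b7, b8⟩ := rk_pos hp hw'
        simp only [Prod.mk.injEq] at e
        obtain ⟨e1, e2, e3, e4⟩ := e
        exact Prod.ext (Prod.ext (hg _ _ a1 b1 (by linarith)) (hg _ _ a2 b2 (by linarith)))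
          (Prod.ext (hg _ _ a3 b3 (by linarith)) (hg _ _ a4 b4 (by linarith)))
    rw [i1, i2, T2]
    rfl
  · have h2 := kfun (fun x p y q => (x, p, y, q))
    have h3 := kfun (fun x p y q => (x, p, y + q))
    rw [h2, h3]
    have i2 : H (rk p f g) (fun w => (f w.1.1 - g w.1.1, f w.1.1 + g w.1.1,
        f w.1.2 - g w.1.2, f w.2.1 + g w.2.1)) = H (rk p f g) (fun w => w) := by
      refine H_congr hk ?_ ?_
      · intro w w' _ _ e
        simp only [e]
      · intro w w' hw hw' e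
        obtain ⟨⟨a1, a2, a3, a4⟩, a5, a6, a7, a8⟩ := rk_pos hp hw
        obtain ⟨⟨b1, b2, b3, b4⟩, b5, b6, b7, b8⟩ := rk_pos hp hw'
        simp only [Prod.mk.injEq] at e
        obtain ⟨e1, e2, e3, e4⟩ := e
        exact Prod.ext (Prod.ext (hg _ _ a1 b1 (by linarith)) (hg _ _ a2 b2 (by linarith)))
          (Prod.ext (hg _ _ a3 b3 (by linarith)) (hg _ _ a4 b4 (by linarith)))
    have i3 : H (sg p f g) (fun w => (f w.1.1.1 - g w.1.1.1, f w.1.1.1 + g w.1.1.1,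
        f w.1.1.2 - g w.1.1.2, f w.1.2.1 + g w.1.2.1, f w.2.1.1 - g w.2.1.1))
        = H (sg p f g) (fun w => w) := by
      refine H_congr hs ?_ ?_
      · intro w w' _ _ e
        simp only [e]
      · intro w w' hw hw' e
        obtain ⟨⟨a1, a2, a3, a4, a5, a6, a7, a8⟩, ⟨c1, c2, c3, c4⟩, ⟨u1, u2, u3, u4⟩,
          ⟨e1, e2, e3⟩⟩ := sup w hw
        obtain ⟨⟨b1, b2, b3, b4, b5, b6, b7, b8⟩, ⟨d1, d2, d3, d4⟩, ⟨v1, v2, v3, v4⟩,
          ⟨k1, k2, k3⟩⟩ := sup w' hw'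
        simp only [Prod.mk.injEq] at e
        obtain ⟨l1, l2, l3, l4, l5⟩ := e
        exact Prod.ext
          (Prod.ext (Prod.ext (hg _ _ a1 b1 (by linarith)) (hg _ _ a2 b2 (by linarith)))
            (Prod.ext (hg _ _ a3 b3 (by linarith)) (hg _ _ a4 b4 (by linarith))))
          (Prod.ext (Prod.ext (hg _ _ a5 b5 (by linarith)) (hg _ _ a6 b6 (by linarith)))
            (Prod.ext (hg _ _ a7 b7 (by linarith)) (hg _ _ a8 b8 (by linarith))))
    have i4 : H (rk p f g) (fun w => (f w.1.1 - g w.1.1, f w.1.1 + g w.1.1,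
        f w.1.2 - g w.1.2 + (f w.2.1 + g w.2.1))) = H (rk p f g) (Fz f g) := by
      -- swap the lines of both pairs and the two pairs
      rw [← k1 (Fz f g), ← k2 (fun w => Fz f g ((w.1.2, w.1.1), (w.2.2, w.2.1)))]
      refine H_congr hk ?_ ?_
      · intro w w' hw hw' e
        obtain ⟨-, a5, a6, a7, a8⟩ := rk_pos hp hw
        obtain ⟨-, b5, b6, b7, b8⟩ := rk_pos hp hw'
        simp only [Fz, Prod.mk.injEq] at e
        obtain ⟨e1, e2, e3⟩ := e
        simp only [Prod.mk.injEq]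
        exact ⟨by linarith, by linarith, by linarith⟩
      · intro w w' hw hw' e
        obtain ⟨-, a5, a6, a7, a8⟩ := rk_pos hp hw
        obtain ⟨-, b5, b6, b7, b8⟩ := rk_pos hp hw'
        simp only [Prod.mk.injEq] at e
        obtain ⟨e1, e2, e3⟩ := e
        simp only [Fz, Prod.mk.injEq]
        exact ⟨by linarith, by linarith, by linarith⟩
    rw [i2, i3, i4, T3]

end

end Pool.Agent.H38.SE
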