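import Mathlib
import Pool.Agent.H38.SE.Main
import Pool.Agent.H38.SE.Gen

/-!
# Three slopes: the weights `46/67, 46/67, 30/67`
-/

namespace Pool.Agent.H38.SE

open Finset Real Pool.Agent.H49.Ent Pool.Agent.H38.SD
open scoped BigOperators

theorem ineq_67 : Ineq (46 / 67) (30 / 67) := by
  intro Ω _ p f g hp h1 hg
  exact main_inj hp h1 hg

theorem three_slopes (A : Finset (ℤ × ℤ)) :
    ((A.image (fun p : ℤ × ℤ => p.1 - p.2)).card : ℝ) ≤
      (((A.image (fun p : ℤ × ℤ => p.1)).card : ℝ) *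
        ((A.image (fun p : ℤ × ℤ => p.2)).card : ℝ)) ^ (46 / 67 : ℝ) *
      ((A.image (fun p : ℤ × ℤ => p.1 + p.2)).card : ℝ) ^ (30 / 67 : ℝ) :=
  slopes_of_ineq (by norm_num) (by norm_num) ineq_67 A

theorem three_slopes_max (A : Finset (ℤ × ℤ)) :
    ((A.image (fun p : ℤ × ℤ => p.1 - p.2)).card : ℝ) ≤
      (max (max ((A.image (fun p : ℤ × ℤ => p.1)).card : ℝ)
        ((A.image (fun p : ℤ × ℤ => p.2)).card : ℝ))
        ((A.image (fun p : ℤ × ℤ => p.1 + p.2)).card : ℝ)) ^ (122 / 67 : ℝ) := by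
  have h := slopes_max_of_ineq (by norm_num) (by norm_num) ineq_67 A
  have e : (2 * (46 / 67) + 30 / 67 : ℝ) = 122 / 67 := by norm_num
  rw [e] at h
  exact h

end Pool.Agent.H38.SE
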